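import Pool.Agent.MWGR.StmtsE

/-!
# MWGR row CMB: a common block behind block `i`
-/

set_option autoImplicit false

namespace Pool.Agent.MWGR.H2

open Pool.Agent.Helper14_MV Pool.Agent.Helper2_MV Pool.Agent.MVO Pool.Agent.MWL Pool.Agent.MWS
open Pool.Agent.MWGR

theorem suf_count (B : ℕ → List ℕ) (i z : ℕ) : ∀ r : ℕ,
    ∑ t ∈ Finset.range r, (B (i + 1 + t)).count z ≤ (suf B i r).count z
  | 0 => by simp
  | r + 1 => by
    have ih := suf_count B i z r
    have e : i + r + 1 = i + 1 + r := by omega
    rw [Finset.sum_range_succ]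
    simp only [suf]
    rw [List.count_append, List.count_cons, e]
    omega

theorem suf_count_one {B : ℕ → List ℕ} {i j k : ℕ} (z : ℕ) (h1 : i < j) (h2 : j ≤ k) :
    (B j).count z ≤ (suf B i (k - i)).count z := by
  refine le_trans ?_ (suf_count B i z (k - i))
  have h3 := Finset.single_le_sum (f := fun t => (B (i + 1 + t)).count z)
    (fun t _ => Nat.zero_le _) (Finset.mem_range.2 (show j - i - 1 < k - i by omega))
  have e : i + 1 + (j - i - 1) = j := by omega
  simp only [e] at h3
  exact h3

theorem suf_count_two {B : ℕ → List ℕ} {i j j' k : ℕ} (z : ℕ) (h1 : i < j) (h2 : j < j')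
    (h3 : j' ≤ k) : (B j).count z + (B j').count z ≤ (suf B i (k - i)).count z := by
  refine le_trans ?_ (suf_count B i z (k - i))
  have hsub : ({j - i - 1, j' - i - 1} : Finset ℕ) ⊆ Finset.range (k - i) := by
    intro t ht
    rw [Finset.mem_range]
    rcases Finset.mem_insert.1 ht with rfl | ht
    · omega
    · rw [Finset.mem_singleton] at ht
      omega
  have h4 := Finset.sum_le_sum_of_subset (f := fun t => (B (i + 1 + t)).count z) hsub
  rw [Finset.sum_pair (by omega)] at h4
  have e : i + 1 + (j - i - 1) = j := by omega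
  have e' : i + 1 + (j' - i - 1) = j' := by omega
  rw [e, e'] at h4
  exact h4

theorem cmb_two {k : ℕ} {B : ℕ → List ℕ} (hB : OkB k B)
    (hG : ∀ c, NS k c → MWGP.Gm k (ty B c)) {i j : ℕ} (hij : i < j) (hj : j ≤ k) {z : ℕ}
    (hz : z ∈ B j) : 2 ≤ (suf B i (k - i)).count z := by
  by_cases h2 : 2 ≤ (B j).count z
  · exact le_trans h2 (suf_count_one z hij hj)
  have h1 : (B j).count z = 1 := by
    have : 0 < (B j).count z := List.count_pos_iff.2 hz
    omega
  have hlo : ∀ l < j, (B l).count z = 0 := by
    intro l hl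
    by_contra hne
    have h3 := hG z (hB.ok j hj z hz) l j hl hj hne (by
      show (B j).count z ≠ 0
      omega)
    exact h2 h3
  have hm := hB.ml j hj z hz
  obtain ⟨l, hl, hlj, hl0⟩ : ∃ l, l ≤ k ∧ l ≠ j ∧ (B l).count z ≠ 0 := by
    by_contra hcon
    have h3 : deg k (fun l => (B l).count z) = (B j).count z := by
      unfold deg
      refine Finset.sum_eq_single j ?_ ?_
      · intro l hl hlj
        by_contra h0
        exact hcon ⟨l, by have := Finset.mem_range.1 hl; omega, hlj, h0⟩
      · intro hnot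
        exact absurd (Finset.mem_range.2 (by omega)) hnot
    rw [h3] at hm
    omega
  have hjl : j < l := by
    by_contra hcon
    exact hl0 (hlo l (by omega))
  have h5 := suf_count_two (B := B) z hij hjl hl
  omega

theorem cmb : CmbStmt := by
  intro k B hB hG i j a b hij hj hab ha hb
  obtain ⟨R, R', hR⟩ := suf_split (B := B) (i := i) (j := j) (r := k - i) hij (by omega)
  have key : ∀ c d : ℕ, ∀ P w Q : List ℕ, B j = P ++ c :: (w ++ d :: Q) →
      Cl (suf B i (k - i)) c d := by
    intro c d P w Q hPQ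
    refine ⟨R ++ P, w, Q ++ R', ?_, fun z hz => cmb_two hB hG hij hj ?_⟩
    · rw [hR, hPQ]
      simp only [List.append_assoc, List.cons_append]
    · rw [hPQ]
      simp [hz]
  obtain ⟨P, T, hPT⟩ := List.append_of_mem ha
  have hb' : b ∈ P ∨ b ∈ T := by
    rw [hPT, List.mem_append, List.mem_cons] at hb
    rcases hb with hb | hb | hb
    · exact Or.inl hb
    · exact absurd hb.symm hab
    · exact Or.inr hb
  rcases hb' with hb' | hb'
  · obtain ⟨P1, w, hw⟩ := List.append_of_mem hb'
    refine Or.inr (key b a P1 w T ?_)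
    rw [hPT, hw]
    simp only [List.append_assoc, List.cons_append]
  · obtain ⟨w, Q, hw⟩ := List.append_of_mem hb'
    refine Or.inl (key a b P w Q ?_)
    rw [hPT, hw]

end Pool.Agent.MWGR.H2
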